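import Pool.Agent.P.MP_a54059_lc.EX.Final

namespace Pool.Agent.Results.MP_a54059_lc.EqualityListsExp

open Pool.Agent.P.MP_a54059_lc.EX

/-- A decision list of equality queries for Majority of XORs has exponential length. -/
theorem result : ∀ᶠ n : ℕ in Filter.atTop,
    ∀ (V : Type) (K : ℕ) (α β : Fin K → (Fin n → Bool) → V) (b : Fin K → Bool) (d : Bool),
      (∀ x y j, α j x = β j y → (∀ i < j, α i x ≠ β i y) →
        (b j = true ↔ n < 2 * hammingDist x y)) →
      (∀ x y, (∀ i, α i x ≠ β i y) → (d = true ↔ n < 2 * hammingDist x y)) →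
      (2 : ℝ) ^ ((n : ℝ) ^ ((1 : ℝ) / 31)) ≤ K := by
  filter_upwards [Filter.eventually_ge_atTop ((10 ^ 47) ^ 31)] with n hn
  intro V K α β b d h1 h2
  obtain ⟨p, p1, p2, p3, p4⟩ := choose_p n hn
  by_contra hcon
  refine finite_bound α β b d h1 h2 p p1 p2 ?_ p3
  have a1 : (2 : ℝ) ^ ((n : ℝ) ^ ((1 : ℝ) / 31)) ≤ 2 ^ (p : ℝ) :=
    Real.rpow_le_rpow_of_exponent_le (by norm_num) p4
  rw [Real.rpow_natCast] at a1
  exact_mod_cast (not_le.1 hcon).le.trans a1

end Pool.Agent.Results.MP_a54059_lc.EqualityListsExp
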