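import Pool.Agent.P.MP_a54059_lc.MA.Final

namespace Pool.Agent.Results.MP_a54059_lc.MerlinArthurTrees

open Pool.Agent.P.MP_a54059_lc.MA

/-- Majority of XORs needs polynomial cost for adaptive Merlin–Arthur queries whose verifiers
are one-way in both directions. -/
theorem result : ∀ᶠ n : ℕ in Filter.atTop, ∀ k d : ℕ,
    Dec k (fun x y : Fin n → Bool => n < 2 * hammingDist x y) d (fun _ _ => True) →
      (n : ℝ) ^ ((1 : ℝ) / 58) ≤ d * (k + 1) := by
  obtain ⟨c, hc⟩ : ∃ c : ℕ, c = 640 * (2 * (60000000000000 * 40000 ^ 19)) ^ 3 := ⟨_, rfl⟩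
  filter_upwards [Filter.eventually_ge_atTop ((c * 2 ^ 57 + 1024) ^ 58)] with n hn
  intro k d h
  obtain ⟨p, p1, p2, p3, p4⟩ := choose_p c n hn
  by_contra hcon
  refine finite_bound h p p1 p2 ?_ (le_trans (le_of_eq ?_) p3)
  · exact_mod_cast (not_le.1 hcon).le.trans p4
  · rw [hc]
    generalize (40000 : ℕ) = a
    generalize (60000000000000 : ℕ) = b
    ring

end Pool.Agent.Results.MP_a54059_lc.MerlinArthurTrees
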