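import Pool.Agent.P.MP_a54059_lc.MonoDeep

/-!
Small monotone formulas of bounded depth for all threshold functions.
An input is the set `X` of variables equal to one.
-/

namespace Pool.Agent.Results.MP_a54059_lc.MonotoneUpper

open Pool.Agent.P.MP_a54059_lc.Mono

theorem result (d : ℕ) (hd : 2 ≤ d) : ∃ C : ℕ, ∀ n E t : ℕ, 2 ^ (9 * d) ≤ E →
    n * Nat.log 2 (Nat.log 2 E) ^ (d - 2) ≤ E ^ (d - 1) →
    ∀ top : Bool, Circ (2 ^ (C * E)) d top fun X : Finset (Fin n) => t ≤ X.card := by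
  obtain ⟨d, rfl⟩ := Nat.exists_eq_add_of_le' hd
  obtain ⟨C, hC⟩ := deep d
  refine ⟨C, fun n E t hE hn top => ?_⟩
  exact (hC (Fin n) E hE Finset.univ (by simpa using hn) top t).congr fun X => by simp

end Pool.Agent.Results.MP_a54059_lc.MonotoneUpper
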