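import Pool.Agent.P.MP_a54059_lc.PT.Final

/-!
Majority of XORs is not a small OR of ANDs (or AND of ORs) of threshold tests
`β · y ≤ τ x` with small integer weights `β` and arbitrary functions `τ`.
-/

namespace Pool.Agent.Results.MP_a54059_lc.PolytopeCover

open Pool.Agent.P.MP_a54059_lc.PT

theorem result : ∀ k ≥ 10 ^ 6, ∀ (n t W M m : ℕ), 1 ≤ W → W ≤ 2 ^ k → k ^ 30 * W ^ 4 ≤ n →
    n ≤ 2 * t → 2 * t ≤ n + 2 →
    ∀ (β : Fin M → Fin m → Fin n → ℤ) (τ : Fin M → Fin m → (Fin n → Bool) → ℤ),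
      (∀ i j v, |β i j v| ≤ W) →
      ((∀ x y : Fin n → Bool, t ≤ hammingDist x y ↔
          ∃ i, ∀ j, ∑ v, (if y v then β i j v else 0) ≤ τ i j x) ∨
        (∀ x y : Fin n → Bool, t ≤ hammingDist x y ↔
          ∀ i, ∃ j, ∑ v, (if y v then β i j v else 0) ≤ τ i j x)) →
      2 ^ k < M * m := by
  intro k hk n t W M m hW hW2 hn ht1 ht2 β τ hβ hf
  rcases hf with hf | hf
  · exact sigma_bound k n t W M m hk hW hW2 hn ht1 ht2 β τ hβ hf
  · exact pi_bound k n t W M m hk hW hW2 hn ht1 ht2 β τ hβ hf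

end Pool.Agent.Results.MP_a54059_lc.PolytopeCover
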